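import Mathlib
import Pool.Agent.MP_fed7c7_lc.S6.Final
import Pool.Agent.MP_fed7c7_lc.S6.H33Core
import Pool.Agent.MP_fed7c7_lc.S6.H52LAB
import Pool.Agent.MP_fed7c7_lc.S6.H86SC
import Pool.Agent.MP_fed7c7_lc.S6.RAD
import Pool.Agent.MP_fed7c7_lc.S6.RCV
import Pool.Agent.MP_fed7c7_lc.S6.RDS
import Pool.Agent.MP_fed7c7_lc.S6.RGC
import Pool.Agent.MP_fed7c7_lc.S6.RGS
import Pool.Agent.MP_fed7c7_lc.S6.RKEY
import Pool.Agent.MP_fed7c7_lc.S6.RNB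
import Pool.Agent.MP_fed7c7_lc.S6.RND
import Pool.Agent.MP_fed7c7_lc.S6.RPC
import Pool.Agent.MP_fed7c7_lc.S6.RPS
import Pool.Agent.MP_fed7c7_lc.S6.RRD
import Pool.Agent.MP_fed7c7_lc.S6.RSS
import Pool.Agent.MP_fed7c7_lc.S6.RUN
import Pool.Agent.MP_fed7c7_lc.S6.RVL
import Pool.Agent.MP_fed7c7_lc.S6.RVS
import Pool.Agent.MP_fed7c7_lc.S6.RWS
import Pool.Agent.MP_fed7c7_lc.S6.RWT
import Pool.Agent.MP_fed7c7_lc.S6.RWU

set_option autoImplicit false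

/-!
Six unknowns: all rows put together.
-/

namespace Pool.Agent.MP_fed7c7_lc.H80

open Pool.Agent.MP_fed7c7_lc.H56 Pool.Agent.MP_fed7c7_lc.S6

theorem reduction6 : ∃ (U : ℕ → Prop) (c : ℕ → List (ℤ × (Fin 6 → ℕ))), ¬ComputablePred U ∧
    Primrec c ∧ ∀ a, U a ↔ ∃ x : Fin 6 → ℤ, ev (c a) x = 0 :=
  S6.red (sWT (sWS sUN)) (sKEY sUN (sWU sUN (sWS sUN)) sNB sND)
    (S6.H33.sCORE sRD sAD sSS S6.H86SC.sSC) (sPS sVL) (sPC sUN sVL sVS) S6.H52LAB.sLAB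
    (sGS sCV sDS) (sGC sCV sDS)

theorem six : ¬ComputablePred fun l : List (ℤ × (Fin 6 → ℕ)) =>
    ∃ x : Fin 6 → ℤ, (l.map fun t => t.1 * ∏ i, x i ^ t.2 i).sum = 0 := by
  intro h
  obtain ⟨U, c, hU, h1, h2⟩ := reduction6
  obtain ⟨f, hf, e⟩ := ComputablePred.computable_iff.1 h
  refine hU (ComputablePred.computable_iff.2 ⟨fun k => f (c k), hf.comp h1.to_comp, ?_⟩)
  funext k
  exact propext ((h2 k).trans (iff_of_eq (congrFun e _)))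

end Pool.Agent.MP_fed7c7_lc.H80
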